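import Mathlib

/-!
# Local inverses of maps close to the identity

If `θ n → id` locally uniformly on an open set `Ω` of the complex plane and the maps `θ n` are
eventually holomorphic near every compact subset, then for every compact `K ⊆ Ω` and `ε > 0`
eventually there is a holomorphic right inverse of `θ n` on a neighbourhood of `K`,
`ε`-close to the identity.
-/

set_option autoImplicit false

open Filter Topology Metric Set

namespace Pool.Agent.H97.LU

theorem exists_inverse {ι : Type*} {l : Filter ι} {Ω : Set ℂ} (hΩ : IsOpen Ω)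
    {θ : ι → ℂ → ℂ} (hθ : TendstoLocallyUniformlyOn θ id l Ω)
    (hd : ∀ K : Set ℂ, K ⊆ Ω → IsCompact K → ∀ᶠ n in l, ∀ z ∈ K, DifferentiableAt ℂ (θ n) z)
    {K : Set ℂ} (hK : IsCompact K) (hKΩ : K ⊆ Ω) {ε : ℝ} (hε : 0 < ε) :
    ∀ᶠ n in l, ∃ (W : Set ℂ) (κ : ℂ → ℂ), IsOpen W ∧ K ⊆ W ∧ DifferentiableOn ℂ κ W ∧
      ∀ w ∈ W, θ n (κ w) = w ∧ ‖κ w - w‖ < ε := by
  obtain ⟨r, hr0, hrΩ⟩ := hK.exists_cthickening_subset_open hΩ hKΩ
  obtain ⟨δ, hδ0, hδr, hδε⟩ : ∃ δ : ℝ, 0 < δ ∧ 5 * δ ≤ r ∧ δ < ε := by
    refine ⟨min (r / 5) (ε / 2), lt_min (by positivity) (by positivity), ?_, ?_⟩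
    · have := min_le_left (r / 5) (ε / 2); linarith
    · have := min_le_right (r / 5) (ε / 2); linarith
  set K5 : Set ℂ := cthickening (5 * δ) K with hK5
  have hK5c : IsCompact K5 := hK.cthickening
  have hK5Ω : K5 ⊆ Ω := (cthickening_mono hδr K).trans hrΩ
  have hu : TendstoUniformlyOn θ id l K5 := by
    rw [tendstoLocallyUniformlyOn_iff_forall_isCompact hΩ] at hθ
    exact hθ K5 hK5Ω hK5c
  have h1 : ∀ᶠ n in l, ∀ z ∈ K5, dist (id z) (θ n z) < δ / 2 := by
    rw [Metric.tendstoUniformlyOn_iff] at hu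
    exact hu (δ / 2) (by positivity)
  filter_upwards [h1, hd K5 hK5Ω hK5c] with n hn hdn
  -- the error `h`
  set h : ℂ → ℂ := fun z => θ n z - z with hh
  have hhb : ∀ z ∈ K5, ‖h z‖ ≤ δ / 2 := by
    intro z hz
    have := hn z hz
    rw [id, dist_comm, dist_eq_norm] at this
    exact this.le
  have hhd : ∀ z ∈ K5, DifferentiableAt ℂ h z := fun z hz => (hdn z hz).sub differentiableAt_id
  -- membership in `K5`
  have hmem : ∀ w ∈ thickening δ K, ∀ z, dist z w ≤ 3 * δ → z ∈ K5 := by
    intro w hw z hz
    obtain ⟨k, hk, hkw⟩ := mem_thickening_iff.1 hw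
    apply mem_cthickening_of_dist_le z k _ K hk
    calc dist z k ≤ dist z w + dist w k := dist_triangle _ _ _
      _ ≤ 5 * δ := by linarith
  have hderiv : ∀ w ∈ thickening δ K, ∀ z ∈ closedBall w (2 * δ), ‖deriv h z‖ ≤ 1 / 2 := by
    intro w hw z hz
    have hsub : ∀ y ∈ closedBall z δ, y ∈ K5 := by
      intro y hy
      apply hmem w hw y
      calc dist y w ≤ dist y z + dist z w := dist_triangle _ _ _
        _ ≤ 3 * δ := by
          have h1 := mem_closedBall.1 hy
          have h2 := mem_closedBall.1 hz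
          linarith
    have hdc : DiffContOnCl ℂ h (ball z δ) := by
      apply DifferentiableOn.diffContOnCl
      intro y hy
      apply (hhd y (hsub y _)).differentiableWithinAt
      exact closure_ball_subset_closedBall hy
    have := Complex.norm_deriv_le_of_forall_mem_sphere_norm_le hδ0 hdc (C := δ / 2)
      (fun y hy => hhb y (hsub y (sphere_subset_closedBall hy)))
    calc ‖deriv h z‖ ≤ δ / 2 / δ := this
      _ = 1 / 2 := by field_simp
  have hlip : ∀ w ∈ thickening δ K, ∀ x ∈ closedBall w (2 * δ), ∀ y ∈ closedBall w (2 * δ),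
      ‖h y - h x‖ ≤ 1 / 2 * ‖y - x‖ := by
    intro w hw x hx y hy
    refine Convex.norm_image_sub_le_of_norm_deriv_le (𝕜 := ℂ) (fun z hz => ?_)
      (hderiv w hw) (convex_closedBall w (2 * δ)) hx hy
    apply hhd z (hmem w hw z _)
    have := mem_closedBall.1 hz
    linarith
  -- fixed points
  have hfix : ∀ w ∈ thickening δ K, ∃ z, ‖z - w‖ ≤ δ ∧ θ n z = w := by
    intro w hw
    have hmaps : MapsTo (fun z => w - h z) (closedBall w δ) (closedBall w δ) := by
      intro z hz
      rw [mem_closedBall, dist_eq_norm]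
      have hz5 : z ∈ K5 := hmem w hw z (by have := mem_closedBall.1 hz; linarith)
      have := hhb z hz5
      have e : w - h z - w = - h z := by ring
      rw [e, norm_neg]
      linarith
    have hcon : ContractingWith (1 / 2 : NNReal)
        (hmaps.restrict (fun z => w - h z) (closedBall w δ) (closedBall w δ)) := by
      refine ⟨by
        rw [← NNReal.coe_lt_coe]
        norm_num, ?_⟩
      refine LipschitzWith.of_dist_le_mul fun x y => ?_
      have hx : (x : ℂ) ∈ closedBall w (2 * δ) :=
        closedBall_subset_closedBall (by linarith) x.2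
      have hy : (y : ℂ) ∈ closedBall w (2 * δ) :=
        closedBall_subset_closedBall (by linarith) y.2
      have := hlip w hw x hx y hy
      rw [Subtype.dist_eq, Subtype.dist_eq]
      simp only [MapsTo.val_restrict_apply, dist_eq_norm]
      have e : (w - h (x : ℂ)) - (w - h (y : ℂ)) = h (y : ℂ) - h (x : ℂ) := by ring
      rw [e]
      have e2 : ‖(x : ℂ) - y‖ = ‖(y : ℂ) - x‖ := norm_sub_rev _ _
      rw [e2]
      simpa using this
    obtain ⟨z, hz, hzf, -⟩ := ContractingWith.exists_fixedPoint' (s := closedBall w δ)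
      isClosed_closedBall.isComplete hmaps hcon (x := w) (mem_closedBall_self hδ0.le)
      (edist_ne_top _ _)
    refine ⟨z, ?_, ?_⟩
    · have := mem_closedBall.1 hz
      rwa [dist_eq_norm] at this
    · have hz' : w - h z = z := hzf
      have : h z = θ n z - z := rfl
      rw [this] at hz'
      linear_combination -hz'
  choose! κ hκ1 hκ2 using hfix
  refine ⟨thickening δ K, κ, isOpen_thickening, self_subset_thickening hδ0 K, ?_, ?_⟩
  · intro w hw
    apply DifferentiableAt.differentiableWithinAt
    -- continuity of `κ`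
    have hev : ∀ᶠ w' in 𝓝 w, w' ∈ thickening δ K ∧ dist w' w ≤ δ := by
      filter_upwards [isOpen_thickening.mem_nhds hw, closedBall_mem_nhds w hδ0] with w' h1 h2
      exact ⟨h1, mem_closedBall.1 h2⟩
    have hle : ∀ᶠ w' in 𝓝 w, ‖κ w' - κ w‖ ≤ 2 * ‖w' - w‖ := by
      filter_upwards [hev] with w' hw'
      have hx : κ w ∈ closedBall w (2 * δ) := by
        rw [mem_closedBall, dist_eq_norm]
        have := hκ1 w hw
        linarith
      have hy : κ w' ∈ closedBall w (2 * δ) := by
        rw [mem_closedBall]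
        have h1 : dist (κ w') w' ≤ δ := by
          rw [dist_eq_norm]; exact hκ1 w' hw'.1
        calc dist (κ w') w ≤ dist (κ w') w' + dist w' w := dist_triangle _ _ _
          _ ≤ 2 * δ := by linarith [hw'.2]
      have h3 := hlip w hw _ hx _ hy
      have e1 : h (κ w') = w' - κ w' := by
        show θ n (κ w') - κ w' = _
        rw [hκ2 w' hw'.1]
      have e2 : h (κ w) = w - κ w := by
        show θ n (κ w) - κ w = _
        rw [hκ2 w hw]
      rw [e1, e2] at h3
      have e3 : κ w' - κ w = (w' - w) - ((w' - κ w') - (w - κ w)) := by ring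
      have h4 : ‖κ w' - κ w‖ ≤ ‖w' - w‖ + ‖(w' - κ w') - (w - κ w)‖ := by
        conv_lhs => rw [e3]
        exact norm_sub_le _ _
      linarith
    have hcont : ContinuousAt κ w := by
      rw [ContinuousAt, tendsto_iff_norm_sub_tendsto_zero]
      refine squeeze_zero' (Eventually.of_forall fun _ => norm_nonneg _) hle ?_
      have h5 : Tendsto (fun w' : ℂ => ‖w' - w‖) (𝓝 w) (𝓝 0) := by
        have h : Continuous (fun w' : ℂ => ‖w' - w‖) := by fun_prop
        simpa using h.tendsto w
      simpa using h5.const_mul 2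
    have hκK : κ w ∈ closedBall w (2 * δ) := by
      rw [mem_closedBall, dist_eq_norm]
      have := hκ1 w hw
      linarith
    have hκ5 : κ w ∈ K5 := hmem w hw _ (by
      have := mem_closedBall.1 hκK
      linarith)
    have hD : HasDerivAt (θ n) (deriv (θ n) (κ w)) (κ w) := (hdn _ hκ5).hasDerivAt
    have hne : deriv (θ n) (κ w) ≠ 0 := by
      intro h0
      have h6 : deriv h (κ w) = -1 := by
        have : HasDerivAt h (deriv (θ n) (κ w) - 1) (κ w) := hD.sub (hasDerivAt_id _)
        rw [this.deriv, h0]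
        ring
      have h7 := hderiv w hw _ hκK
      rw [h6, norm_neg, norm_one] at h7
      linarith
    have hleft : ∀ᶠ w' in 𝓝 w, θ n (κ w') = w' := by
      filter_upwards [hev] with w' hw'
      exact hκ2 w' hw'.1
    exact (hD.of_local_left_inverse hcont hne hleft).differentiableAt
  · intro w hw
    exact ⟨hκ2 w hw, lt_of_le_of_lt (hκ1 w hw) hδε⟩

end Pool.Agent.H97.LU
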